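import Pool.Agent.Helper5_RF.Diffeo

/-!
# Module CYL: the radial field of a cylinder metric is parallel (MP_a23110_gt squad, helper5)
-/

noncomputable section

open scoped ContDiff Topology RealInnerProductSpace
set_option maxSynthPendingDepth 3
open Set

namespace Pool.Agent.RF.H5

open Pool.Agent.RF

variable {ι : Type} [Fintype ι] [DecidableEq ι] {H : E ι → Bil (E ι)}

theorem om_isOpen : IsOpen (Om ι) := isOpen_compl_singleton

theorem om_smul {c : ℝ} (hc : 0 < c) {x : E ι} (hx : x ∈ Om ι) : c • x ∈ Om ι :=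
  smul_ne_zero hc.ne' hx

theorem cyl_diffAt (hH : IsCyl H) {x : E ι} (hx : x ∈ Om ι) : DifferentiableAt ℝ H x :=
  (hH.metric.smooth.contDiffAt (hH.metric.isOpen.mem_nhds hx)).differentiableAt (by simp)

/-- derivative of a function homogeneous under dilations -/
theorem hom_fderiv {F : Type*} [NormedAddCommGroup F] [NormedSpace ℝ F] {f : E ι → F} {a c : ℝ}
    (hc : 0 < c) {x : E ι} (hx : x ∈ Om ι) (hf : ∀ y ∈ Om ι, f (c • y) = a • f y)
    (hd : DifferentiableAt ℝ f x) (hd' : DifferentiableAt ℝ f (c • x)) (v : E ι) :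
    fderiv ℝ f (c • x) v = (c⁻¹ * a) • fderiv ℝ f x v := by
  have h1 : HasFDerivAt (fun y : E ι => c • y) (c • ContinuousLinearMap.id ℝ (E ι)) x :=
    (hasFDerivAt_id x).const_smul c
  have h2 := hd'.hasFDerivAt.comp x h1
  have h3 : HasFDerivAt (fun y => a • f y) (a • fderiv ℝ f x) x := hd.hasFDerivAt.const_smul a
  have h4 : (fun y => a • f y) =ᶠ[𝓝 x] (f ∘ fun y : E ι => c • y) := by
    filter_upwards [om_isOpen.mem_nhds hx] with y hy
    exact (hf y hy).symm
  have h5 := h2.unique (h3.congr_of_eventuallyEq h4.symm)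
  have h6 := congrArg (fun L => L v) h5
  have h7 : fderiv ℝ f (c • x) (c • v) = a • fderiv ℝ f x v := h6
  rw [map_smul] at h7
  rw [mul_smul, ← h7, smul_smul, inv_mul_cancel₀ hc.ne', one_smul]

/-- Euler's relation -/
theorem hom_euler {F : Type*} [NormedAddCommGroup F] [NormedSpace ℝ F] {f : E ι → F} {n : ℕ}
    {x : E ι} (hx : x ∈ Om ι) (hf : ∀ c : ℝ, 0 < c → f (c • x) = (c ^ n)⁻¹ • f x)
    (hd : DifferentiableAt ℝ f x) :
    fderiv ℝ f x x = -(n : ℝ) • f x := by
  have h1 : HasDerivAt (fun c : ℝ => c • x) x 1 := by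
    simpa using (hasDerivAt_id (1 : ℝ)).smul_const x
  have h0 : HasFDerivAt f (fderiv ℝ f x) ((1 : ℝ) • x) := by
    rw [one_smul]; exact hd.hasFDerivAt
  have h2 : HasDerivAt (fun c : ℝ => f (c • x)) (fderiv ℝ f x x) 1 := h0.comp_hasDerivAt (1 : ℝ) h1
  have h3 : HasDerivAt (fun c : ℝ => (c ^ n)⁻¹ • f x) (-(n : ℝ) • f x) 1 := by
    have := ((hasDerivAt_pow n (1 : ℝ)).inv (by simp)).smul_const (f x)
    simpa using this
  have h4 : (fun c : ℝ => (c ^ n)⁻¹ • f x) =ᶠ[𝓝 1] (fun c : ℝ => f (c • x)) := by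
    filter_upwards [lt_mem_nhds (zero_lt_one : (0 : ℝ) < 1)] with c hc
    exact (hf c hc).symm
  exact h2.unique (h3.congr_of_eventuallyEq h4.symm)

theorem cyl_euler (hH : IsCyl H) {x : E ι} (hx : x ∈ Om ι) (v w : E ι) :
    fderiv ℝ H x x v w = -2 * H x v w := by
  have := hom_euler (n := 2) hx (fun c hc => hH.homog c hc x hx) (cyl_diffAt hH hx)
  rw [this]
  simp

theorem cyl_radial_deriv (hH : IsCyl H) {x : E ι} (hx : x ∈ Om ι) (v w : E ι) :
    fderiv ℝ H x v x w + H x v w = ⟪v, w⟫ / ‖x‖ ^ 2 - 2 * ⟪x, w⟫ * ⟪x, v⟫ / ‖x‖ ^ 4 := by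
  have hx0 : ‖x‖ ≠ 0 := norm_ne_zero_iff.2 hx
  have h1 := ((cyl_diffAt hH hx).hasFDerivAt.clm_apply (hasFDerivAt_id (𝕜 := ℝ) x)).clm_apply
    (hasFDerivAt_const (𝕜 := ℝ) w x)
  have h2 : HasFDerivAt (fun y : E ι => ⟪y, w⟫ / ‖y‖ ^ 2)
      (((‖x‖ ^ 2)⁻¹) • (innerSL ℝ w) + ⟪x, w⟫ • (-(((‖x‖ ^ 2) ^ 2)⁻¹) • (2 • (innerSL ℝ x)))) x := by
    have k1 : HasFDerivAt (fun y : E ι => ⟪y, w⟫) (innerSL ℝ w) x := by
      have := (innerSL ℝ w).hasFDerivAt (x := x)
      refine this.congr_of_eventuallyEq (Filter.Eventually.of_forall fun y => ?_)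
      simp [real_inner_comm]
    have k2 : HasFDerivAt (fun y : E ι => ‖y‖ ^ 2) (2 • (innerSL ℝ x)) x :=
      (hasStrictFDerivAt_norm_sq x).hasFDerivAt
    have k3 : HasFDerivAt (fun y : E ι => (‖y‖ ^ 2)⁻¹) (-(((‖x‖ ^ 2) ^ 2)⁻¹) • (2 • (innerSL ℝ x))) x := by
      have := (hasDerivAt_inv (pow_ne_zero 2 hx0)).comp_hasFDerivAt x k2
      exact this
    have k4 := k1.mul k3
    refine (k4.congr_fderiv ?_).congr_of_eventuallyEq (Filter.Eventually.of_forall fun y => ?_)
    · rw [add_comm]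
    · simp [div_eq_mul_inv]
  have h3 : (fun y : E ι => H y y w) =ᶠ[𝓝 x] (fun y : E ι => ⟪y, w⟫ / ‖y‖ ^ 2) := by
    filter_upwards [om_isOpen.mem_nhds hx] with y hy
    exact hH.radial y hy w
  have h4 := h1.unique (h2.congr_of_eventuallyEq h3)
  have h5 := congrArg (fun L => L v) h4
  simp at h5
  rw [add_comm (fderiv ℝ H x v x w), h5, real_inner_comm w v]
  field_simp
  ring

theorem cyl_chris_x (h : ChrStatement) (hH : IsCyl H) {x : E ι} (hx : x ∈ Om ι) (v : E ι) :
    chris H x v x = -v := by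
  refine chr_unique h hH.metric hx v x (-v) ?_
  intro z
  have e1 := cyl_radial_deriv hH hx v z
  have e2 := cyl_radial_deriv hH hx z v
  rw [chr_dsymm h hH.metric hx v x z, cyl_euler hH hx]
  have e3 := hH.metric.symm x hx z v
  rw [e3, real_inner_comm v z] at e2
  have e4 : H x (-v) z = - H x v z := by
    rw [(H x).map_neg]; rfl
  rw [e4]
  have e5 : fderiv ℝ H x v x z = fderiv ℝ H x z x v := by
    have : 2 * ⟪x, v⟫ * ⟪x, z⟫ / ‖x‖ ^ 4 = 2 * ⟪x, z⟫ * ⟪x, v⟫ / ‖x‖ ^ 4 := by ring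
    rw [this] at e2
    linarith
  rw [e5]
  ring

theorem cyl_chris_x' (h : ChrStatement) (hH : IsCyl H) {x : E ι} (hx : x ∈ Om ι) (v : E ι) :
    chris H x x v = -v := by
  rw [chr_comm h hH.metric hx, cyl_chris_x h hH hx]

theorem cyl_chris_hom (h : ChrStatement) (hH : IsCyl H) {x : E ι} (hx : x ∈ Om ι) {c : ℝ}
    (hc : 0 < c) (v w : E ι) : chris H (c • x) v w = c⁻¹ • chris H x v w := by
  refine chr_unique h hH.metric (om_smul hc hx) v w _ ?_
  intro z
  have key : ∀ u a b, fderiv ℝ H (c • x) u a b = (c⁻¹ * (c ^ 2)⁻¹) * fderiv ℝ H x u a b := by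
    intro u a b
    have := hom_fderiv hc hx (fun y hy => hH.homog c hc y hy) (cyl_diffAt hH hx)
      (cyl_diffAt hH (om_smul hc hx)) u
    rw [this]
    rfl
  rw [key, key, key, hH.homog c hc x hx]
  have : ((c ^ 2)⁻¹ • H x) (c⁻¹ • chris H x v w) z = (c ^ 2)⁻¹ * (c⁻¹ * H x (chris H x v w) z) := by
    rw [map_smul]
    change c⁻¹ * ((c ^ 2)⁻¹ * H x (chris H x v w) z) = (c ^ 2)⁻¹ * (c⁻¹ * H x (chris H x v w) z)
    ring
  rw [this, chr_kos h hH.metric hx]
  ring

theorem cyl_dchris_x (h : ChrStatement) (hH : IsCyl H) {x : E ι} (hx : x ∈ Om ι) (u v : E ι) :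
    fderiv ℝ (fun y => chris H y v x) x u = - chris H x v u := by
  have h1 := chr_fderiv_comp h hH.metric (f := fun y : E ι => y) (a := fun _ => v)
    (b := fun y => y) (y := x) differentiableAt_id (differentiableAt_const v) differentiableAt_id hx u
  have h2 : (fun y : E ι => chris H y v y) =ᶠ[𝓝 x] (fun y : E ι => -v) := by
    filter_upwards [om_isOpen.mem_nhds hx] with y hy
    exact cyl_chris_x h hH hy v
  rw [h2.fderiv_eq] at h1
  simp only [fderiv_const_apply, fderiv_fun_id, zero_apply,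
    ContinuousLinearMap.id_apply] at h1
  have h3 : chris H x 0 x = 0 := by
    have := chr_smul_left h hH.metric hx 0 0 x
    simpa using this
  rw [h3, add_zero] at h1
  have h4 := h1.symm
  exact eq_neg_of_add_eq_zero_left h4

theorem cyl_riem_hom (h : ChrStatement) (hH : IsCyl H) {x : E ι} (hx : x ∈ Om ι) {c : ℝ}
    (hc : 0 < c) (u v w : E ι) : riem H (c • x) u v w = (c ^ 2)⁻¹ • riem H x u v w := by
  have key : ∀ a b u, fderiv ℝ (fun y => chris H y a b) (c • x) u =
      (c⁻¹ * c⁻¹) • fderiv ℝ (fun y => chris H y a b) x u := by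
    intro a b u
    exact hom_fderiv (f := fun y => chris H y a b) hc hx (fun y hy => cyl_chris_hom h hH hy hc a b)
      (chr_diffAt' h hH.metric hx a b) (chr_diffAt' h hH.metric (om_smul hc hx) a b) u
  unfold riem
  rw [key, key, cyl_chris_hom h hH hx hc, cyl_chris_hom h hH hx hc, cyl_chris_hom h hH hx hc,
    cyl_chris_hom h hH hx hc, chr_smul_right h hH.metric hx, chr_smul_right h hH.metric hx]
  simp only [smul_smul, smul_sub, smul_add]
  have : (c ^ 2)⁻¹ = c⁻¹ * c⁻¹ := by rw [pow_two, mul_inv]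
  rw [this]

/-- **Module CYL.** -/
theorem cyl (h : ChrStatement) : CylStatement := by
  intro ι _ _ H hH x hx
  have c2 : ∀ v w, riem H x x v w = 0 := by
    intro v w
    unfold riem
    have h1 : fderiv ℝ (fun y => chris H y v w) x x = - chris H x v w := by
      have := hom_euler (n := 1) (f := fun y => chris H y v w) hx
        (fun c hc => by simpa using cyl_chris_hom h hH hx hc v w) (chr_diffAt' h hH.metric hx v w)
      simpa using this
    rw [h1, dchr_comm h hH.metric hx, cyl_dchris_x h hH hx, cyl_chris_x' h hH hx,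
      cyl_chris_x' h hH hx, chr_neg_right h hH.metric hx, chr_comm h hH.metric hx w v]
    abel
  have c3 : ∀ u v, riem H x u v x = 0 := by
    intro u v
    unfold riem
    rw [cyl_dchris_x h hH hx, cyl_dchris_x h hH hx, cyl_chris_x h hH hx, cyl_chris_x h hH hx,
      chr_neg_right h hH.metric hx, chr_neg_right h hH.metric hx, chr_comm h hH.metric hx v u]
    abel
  refine ⟨cyl_chris_x h hH hx, c2, c3, ?_, ?_, ?_, ?_⟩
  · intro w
    unfold ric
    refine Finset.sum_eq_zero fun i _ => ?_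
    rw [riem_antisymm h hH.metric hx, c2]
    simp
  · intro w
    unfold ric
    refine Finset.sum_eq_zero fun i _ => ?_
    rw [c3]
    simp
  · intro c hc v w
    exact cyl_chris_hom h hH hx hc v w
  · intro c hc v w
    unfold ric
    rw [Finset.mul_sum]
    refine Finset.sum_congr rfl fun i _ => ?_
    rw [cyl_riem_hom h hH hx hc]
    simp

end Pool.Agent.RF.H5
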