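import Pool.Agent.Helper5_RF.Common

/-!
# Module NAT: naturality of the curvature tensor (MP_a23110_gt squad, helper5)
-/

noncomputable section

open scoped ContDiff Topology RealInnerProductSpace
set_option maxSynthPendingDepth 3
open Set

namespace Pool.Agent.RF.H5

open Pool.Agent.RF

theorem star_deriv (h : ChrStatement) (ι κ : Type) [Fintype ι] [DecidableEq ι] [Fintype κ]
    [DecidableEq κ]
    (G : E κ → Bil (E κ)) (H : E ι → Bil (E ι)) (ψ : E κ → E ι) (U : Set (E κ)) (U' : Set (E ι))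
    (hG : IsMetricOn G U) (hH : IsMetricOn H U') (hψ : ContDiffOn ℝ ∞ ψ U) (hm : MapsTo ψ U U')
    (hs : StarOn G H ψ U) (y : E κ) (hy : y ∈ U) (u v w : E κ) :
    fderiv ℝ (fderiv ℝ (fun z => fderiv ℝ ψ z w)) y u v
      + (fderiv ℝ (fun z => chris H z (fderiv ℝ ψ y v) (fderiv ℝ ψ y w)) (ψ y) (fderiv ℝ ψ y u)
        + chris H (ψ y) (fderiv ℝ (fderiv ℝ ψ) y u v) (fderiv ℝ ψ y w)
        + chris H (ψ y) (fderiv ℝ ψ y v) (fderiv ℝ (fderiv ℝ ψ) y u w)) =
      fderiv ℝ (fderiv ℝ ψ) y u (chris G y v w)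
        + fderiv ℝ ψ y (fderiv ℝ (fun z => chris G z v w) y u) := by
  have hc : ContDiffAt ℝ ∞ ψ y := psi_contDiffAt hG.isOpen hψ hy
  have hcw := fd_apply_contDiffAt hc w
  have hcv := fd_apply_contDiffAt hc v
  have e1 : (fun z => fderiv ℝ (fun z' => fderiv ℝ ψ z' w) z v
      + chris H (ψ z) (fderiv ℝ ψ z v) (fderiv ℝ ψ z w)) =ᶠ[𝓝 y]
      (fun z => fderiv ℝ ψ z (chris G z v w)) := by
    filter_upwards [hG.isOpen.mem_nhds hy] with z hz
    exact hs z hz v w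
  have e2 := e1.fderiv_eq (𝕜 := ℝ)
  have e3 := congrArg (fun L => L u) e2
  have d1 : DifferentiableAt ℝ (fun z => fderiv ℝ (fun z' => fderiv ℝ ψ z' w) z v) y :=
    (fd_apply_contDiffAt hcw v).differentiableAt (by simp)
  have d2 := chr_hasFDerivAt_comp h hH (hc.differentiableAt (by simp)).hasFDerivAt
    (hcv.differentiableAt (by simp)).hasFDerivAt (hcw.differentiableAt (by simp)).hasFDerivAt
    (hm hy)
  have d3 : HasFDerivAt (fderiv ℝ ψ) (fderiv ℝ (fderiv ℝ ψ) y) y :=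
    ((fd_contDiffAt hc).differentiableAt (by simp)).hasFDerivAt
  have d4 := d3.clm_apply (chr_diffAt' h hG hy v w).hasFDerivAt
  rw [fderiv_fun_add d1 d2.differentiableAt, d2.fderiv, d4.fderiv] at e3
  have k1 : fderiv ℝ (fun z => fderiv ℝ (fun z' => fderiv ℝ ψ z' w) z v) y u =
      fderiv ℝ (fderiv ℝ (fun z => fderiv ℝ ψ z w)) y u v := fd2_eq hcw u v
  have k2 : fderiv ℝ (fun z => fderiv ℝ ψ z v) y u = fderiv ℝ (fderiv ℝ ψ) y u v := fd2_eq hc u v
  have k3 : fderiv ℝ (fun z => fderiv ℝ ψ z w) y u = fderiv ℝ (fderiv ℝ ψ) y u w := fd2_eq hc u w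
  change fderiv ℝ (fun z => fderiv ℝ (fun z' => fderiv ℝ ψ z' w) z v) y u +
    (fderiv ℝ (fun z => chris H z (fderiv ℝ ψ y v) (fderiv ℝ ψ y w)) (ψ y) (fderiv ℝ ψ y u)
        + chris H (ψ y) (fderiv ℝ (fun z => fderiv ℝ ψ z v) y u) (fderiv ℝ ψ y w)
        + chris H (ψ y) (fderiv ℝ ψ y v) (fderiv ℝ (fun z => fderiv ℝ ψ z w) y u)) =
     fderiv ℝ ψ y (fderiv ℝ (fun z => chris G z v w) y u) +
      fderiv ℝ (fderiv ℝ ψ) y u (chris G y v w) at e3
  rw [k1, k2, k3] at e3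
  rw [e3, add_comm]

/-- **Module NAT.** -/
theorem nat (h : ChrStatement) : NatStatement := by
  intro ι κ _ _ _ _ G H ψ U U' hG hH hψ hm hs y hy u v w
  have hc : ContDiffAt ℝ ∞ ψ y := psi_contDiffAt hG.isOpen hψ hy
  have hcw := fd_apply_contDiffAt hc w
  have A := star_deriv h ι κ G H ψ U U' hG hH hψ hm hs y hy u v w
  have B := star_deriv h ι κ G H ψ U U' hG hH hψ hm hs y hy v u w
  have s1 := fd2_symm hcw u v
  have s2 := fd2_symm hc u v
  have st : ∀ a b, fderiv ℝ (fderiv ℝ ψ) y a b =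
      fderiv ℝ ψ y (chris G y a b) - chris H (ψ y) (fderiv ℝ ψ y a) (fderiv ℝ ψ y b) := by
    intro a b
    rw [← fd2_eq hc, ← hs y hy a b]
    abel
  rw [st u w, st u (chris G y v w), chr_sub_right h hH (hm hy)] at A
  rw [st v w, st v (chris G y u w), chr_sub_right h hH (hm hy), ← s1, ← s2] at B
  have C := congrArg₂ (fun a b => a - b) A B
  rw [riem, riem, map_sub, map_add, map_sub]
  have C2 := sub_eq_zero.2 C
  rw [← sub_eq_zero, ← neg_eq_zero, ← C2]
  abel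

end Pool.Agent.RF.H5
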