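import Pool.Agent.Helper5_RF.Cyl

/-!
# Module SLICE: slices of the cylinder (MP_a23110_gt squad, helper5)
-/

noncomputable section

open scoped ContDiff Topology RealInnerProductSpace
set_option maxSynthPendingDepth 3
open Set

namespace Pool.Agent.RF.H5

open Pool.Agent.RF

variable {ι κ : Type} [Fintype ι] [DecidableEq ι] [Fintype κ] [DecidableEq κ]
  {H : E ι → Bil (E ι)} {ψ : E κ → E ι} {U : Set (E κ)}

/-- the map `(v, s) ↦ D v + s x` -/
def lam (D : E κ →L[ℝ] E ι) (x : E ι) : (E κ × ℝ) →ₗ[ℝ] E ι :=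
  LinearMap.coprod D.toLinearMap (LinearMap.toSpanSingleton ℝ (E ι) x)

@[simp] theorem lam_apply (D : E κ →L[ℝ] E ι) (x : E ι) (v : E κ) (s : ℝ) :
    lam D x (v, s) = D v + s • x := by
  simp [lam]

theorem lam_inj {D : E κ →L[ℝ] E ι} {x : E ι} (hD : Function.Injective D) (hx : x ≠ 0)
    (ho : ∀ v, ⟪x, D v⟫ = 0) : Function.Injective (lam D x) := by
  rw [← LinearMap.ker_eq_bot, LinearMap.ker_eq_bot']
  rintro ⟨v, s⟩ h0
  rw [lam_apply] at h0
  have h1 : ⟪x, D v + s • x⟫ = 0 := by rw [h0, inner_zero_right]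
  rw [inner_add_right, ho, zero_add, inner_smul_right] at h1
  have h2 : ⟪x, x⟫ ≠ 0 := inner_self_ne_zero.2 hx
  have h3 : s = 0 := by
    rcases mul_eq_zero.1 h1 with h | h
    · exact h
    · exact absurd h h2
  subst h3
  rw [zero_smul, add_zero] at h0
  have h4 : v = 0 := hD (by rw [h0, map_zero])
  subst h4
  rfl

/-- the equivalence `E κ × ℝ ≃ E ι` -/
def lamE {D : E κ →L[ℝ] E ι} {x : E ι} (hcard : Fintype.card ι = Fintype.card κ + 1)
    (hD : Function.Injective D) (hx : x ≠ 0)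
    (ho : ∀ v, ⟪x, D v⟫ = 0) : (E κ × ℝ) ≃ₗ[ℝ] E ι :=
  LinearEquiv.ofInjectiveOfFinrankEq (lam D x) (lam_inj hD hx ho) (by
    rw [Module.finrank_prod, finrank_euclideanSpace, finrank_euclideanSpace, Module.finrank_self,
      hcard])

theorem lamE_apply {D : E κ →L[ℝ] E ι} {x : E ι} (hcard : Fintype.card ι = Fintype.card κ + 1)
    (hD : Function.Injective D) (hx : x ≠ 0)
    (ho : ∀ v, ⟪x, D v⟫ = 0) (v : E κ) (s : ℝ) : lamE hcard hD hx ho (v, s) = D v + s • x := by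
  have h1 := LinearEquiv.coe_ofInjectiveOfFinrankEq (lam D x) (lam_inj hD hx ho) (by
    rw [Module.finrank_prod, finrank_euclideanSpace, finrank_euclideanSpace, Module.finrank_self,
      hcard])
  have h2 := congrArg (fun L => L (v, s)) h1
  have h3 : lamE hcard hD hx ho (v, s) = lam D x (v, s) := h2
  rw [h3, lam_apply]

theorem psi_orth (hU : IsOpen U) (hψ : ContDiffOn ℝ ∞ ψ U) (h1 : ∀ y ∈ U, ‖ψ y‖ = 1) {y : E κ}
    (hy : y ∈ U) (v : E κ) : ⟪ψ y, fderiv ℝ ψ y v⟫ = 0 := by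
  have hc : ContDiffAt ℝ ∞ ψ y := psi_contDiffAt hU hψ hy
  have hd := (hc.differentiableAt (by simp)).hasFDerivAt
  have h2 := hd.inner ℝ hd
  have h3 : (fun z => ⟪ψ z, ψ z⟫) =ᶠ[𝓝 y] (fun _ => (1 : ℝ)) := by
    filter_upwards [hU.mem_nhds hy] with z hz
    rw [real_inner_self_eq_norm_sq, h1 z hz]
    norm_num
  have h4 := h2.unique ((hasFDerivAt_const (𝕜 := ℝ) (1 : ℝ) y).congr_of_eventuallyEq h3)
  have h5 := congrArg (fun L => L v) h4
  simp at h5
  rw [real_inner_comm (ψ y) (fderiv ℝ ψ y v)] at h5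
  linarith

theorem psi_orth2 (hU : IsOpen U) (hψ : ContDiffOn ℝ ∞ ψ U) (h1 : ∀ y ∈ U, ‖ψ y‖ = 1) {y : E κ}
    (hy : y ∈ U) (v w : E κ) :
    ⟪ψ y, fderiv ℝ (fderiv ℝ ψ) y v w⟫ = - ⟪fderiv ℝ ψ y v, fderiv ℝ ψ y w⟫ := by
  have hc : ContDiffAt ℝ ∞ ψ y := psi_contDiffAt hU hψ hy
  have hd := (hc.differentiableAt (by simp)).hasFDerivAt
  have hdw := ((fd_apply_contDiffAt hc w).differentiableAt (by simp)).hasFDerivAt
  have h2 := hd.inner ℝ hdw
  have h3 : (fun z => ⟪ψ z, fderiv ℝ ψ z w⟫) =ᶠ[𝓝 y] (fun _ => (0 : ℝ)) := by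
    filter_upwards [hU.mem_nhds hy] with z hz
    exact psi_orth hU hψ h1 hz w
  have h4 := h2.unique ((hasFDerivAt_const (𝕜 := ℝ) (0 : ℝ) y).congr_of_eventuallyEq h3)
  have h5 := congrArg (fun L => L v) h4
  simp at h5
  rw [fd2_eq hc] at h5
  linarith

theorem om_of_norm {x : E ι} (h : ‖x‖ = 1) : x ∈ Om ι := by
  intro h0
  rw [h0, norm_zero] at h
  exact zero_ne_one h

theorem slice_star (h : ChrStatement) (hcard : Fintype.card ι = Fintype.card κ + 1)
    (hH : IsCyl H) (hU : IsOpen U) (hψ : ContDiffOn ℝ ∞ ψ U) (h1 : ∀ y ∈ U, ‖ψ y‖ = 1)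
    (hinj : ∀ y ∈ U, Function.Injective (fderiv ℝ ψ y)) :
    IsMetricOn (pullb H ψ) U ∧ StarOn (pullb H ψ) H ψ U := by
  have hm : MapsTo ψ U (Om ι) := fun y hy => om_of_norm (h1 y hy)
  have hM := pullb_isMetricOn hH.metric hU hψ hm hinj
  refine ⟨hM, ?_⟩
  intro y hy v w
  have hc : ContDiffAt ℝ ∞ ψ y := psi_contDiffAt hU hψ hy
  rw [fd2_eq hc]
  set X := fderiv ℝ (fderiv ℝ ψ) y v w + chris H (ψ y) (fderiv ℝ ψ y v) (fderiv ℝ ψ y w) with hX
  have hx := hm hy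
  have k1 : ∀ z, H (ψ y) (fderiv ℝ ψ y (chris (pullb H ψ) y v w) - X) (fderiv ℝ ψ y z) = 0 := by
    intro z
    rw [(H (ψ y)).map_sub]
    change H (ψ y) (fderiv ℝ ψ y (chris (pullb H ψ) y v w)) (fderiv ℝ ψ y z)
      - H (ψ y) X (fderiv ℝ ψ y z) = 0
    rw [← pullb_apply, chr_kos h hM hy, pullb_kos hH.metric h hU hψ hm y hy, sub_self]
  have k2 : ∀ u, H (ψ y) u (ψ y) = ⟪ψ y, u⟫ := by
    intro u
    rw [hH.metric.symm _ hx, hH.radial _ hx, h1 y hy]
    simp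
  have k3 : H (ψ y) (fderiv ℝ ψ y (chris (pullb H ψ) y v w) - X) (ψ y) = 0 := by
    rw [k2, inner_sub_right, psi_orth hU hψ h1 hy, hX, inner_add_right, psi_orth2 hU hψ h1 hy]
    rw [← k2, chr_kos h hH.metric hx]
    set a := fderiv ℝ ψ y v with ha
    set b := fderiv ℝ ψ y w with hb
    have e1 := cyl_radial_deriv hH hx a b
    have e2 := cyl_radial_deriv hH hx b a
    have oa : ⟪ψ y, a⟫ = 0 := psi_orth hU hψ h1 hy v
    have ob : ⟪ψ y, b⟫ = 0 := psi_orth hU hψ h1 hy w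
    rw [oa, ob, h1 y hy] at e1 e2
    rw [chr_dsymm h hH.metric hx b (ψ y) a, chr_dsymm h hH.metric hx a (ψ y) b,
      cyl_euler hH hx]
    rw [hH.metric.symm _ hx b a, real_inner_comm a b] at e2
    linarith
  have k4 : ∀ u, H (ψ y) (fderiv ℝ ψ y (chris (pullb H ψ) y v w) - X) u = 0 := by
    intro u
    obtain ⟨⟨a, s⟩, rfl⟩ := (lamE hcard (hinj y hy) hx (psi_orth hU hψ h1 hy)).surjective u
    rw [lamE_apply, map_add, map_smul, k1, k3, smul_zero, add_zero]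
  by_contra hne
  have h5 := hH.metric.pos _ hx _ (sub_ne_zero.2 (Ne.symm hne))
  rw [k4] at h5
  exact lt_irrefl _ h5

theorem slice_ric (h : ChrStatement) (hn : NatStatement) (hcy : CylStatement)
    (hcard : Fintype.card ι = Fintype.card κ + 1)
    (hH : IsCyl H) (hU : IsOpen U) (hψ : ContDiffOn ℝ ∞ ψ U) (h1 : ∀ y ∈ U, ‖ψ y‖ = 1)
    (hinj : ∀ y ∈ U, Function.Injective (fderiv ℝ ψ y)) (y : E κ) (hy : y ∈ U) (v w : E κ) :
    ric (pullb H ψ) y v w = ric H (ψ y) (fderiv ℝ ψ y v) (fderiv ℝ ψ y w) := by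
  have hm : MapsTo ψ U (Om ι) := fun y hy => om_of_norm (h1 y hy)
  obtain ⟨hM, hS⟩ := slice_star h hcard hH hU hψ h1 hinj
  rw [ric_eq_trace h hM hy, ric_eq_trace h hH.metric (hm hy)]
  set e := lamE hcard (hinj y hy) (hm hy) (psi_orth hU hψ h1 hy) with he
  have hconj : riemLin h hH.metric (hm hy) (fderiv ℝ ψ y v) (fderiv ℝ ψ y w) =
      e.conj (LinearMap.prodMap (riemLin h hM hy v w) (0 : ℝ →ₗ[ℝ] ℝ)) := by
    ext1 u
    obtain ⟨⟨a, s⟩, rfl⟩ := e.surjective u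
    rw [LinearEquiv.conj_apply_apply, e.symm_apply_apply, LinearMap.prodMap_apply, lamE_apply,
      lamE_apply, LinearMap.zero_apply, zero_smul, add_zero, map_add, map_smul]
    rw [riemLin_apply, riemLin_apply, riemLin_apply]
    rw [((hcy ι H hH (ψ y) (hm hy)).2.1), smul_zero, add_zero]
    exact (hn ι κ (pullb H ψ) H ψ U (Om ι) hM hH.metric hψ hm hS y hy a v w).symm
  rw [hconj, LinearMap.trace_conj', LinearMap.trace_prodMap', map_zero, add_zero]

/-- **Module SLICE.** -/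
theorem slice (h : ChrStatement) (hn : NatStatement) (hcy : CylStatement) : SliceStatement := by
  intro ι κ _ _ _ _ H ψ U hcard hH hU hψ h1 hinj
  have hm : MapsTo ψ U (Om ι) := fun y hy => om_of_norm (h1 y hy)
  obtain ⟨hM, hS⟩ := slice_star h hcard hH hU hψ h1 hinj
  refine ⟨hM, hS, ?_⟩
  intro y hy
  refine ⟨slice_ric h hn hcy hcard hH hU hψ h1 hinj y hy, ?_⟩
  have hskf : ∀ (e : κ → E κ) (φ : Matrix κ κ ℝ), skf (pullb H ψ) y e φ =
      skf H (ψ y) (fun i => fderiv ℝ ψ y (e i)) φ := by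
    intro e φ
    unfold skf
    refine Finset.sum_congr rfl fun i _ => Finset.sum_congr rfl fun j _ =>
      Finset.sum_congr rfl fun k _ => Finset.sum_congr rfl fun l _ => ?_
    rw [pullb_apply, hn ι κ (pullb H ψ) H ψ U (Om ι) hM hH.metric hψ hm hS y hy]
  have hort : ∀ (e : κ → E κ), IsOrtho (pullb H ψ y) e ↔
      IsOrtho (H (ψ y)) (fun i => fderiv ℝ ψ y (e i)) := by
    intro e
    rfl
  have hex : ∀ e' : κ → E ι, (∀ i, ⟪ψ y, e' i⟫ = 0) → ∃ e : κ → E κ,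
      e' = fun i => fderiv ℝ ψ y (e i) := by
    intro e' he'
    have : ∀ i, ∃ a : E κ, e' i = fderiv ℝ ψ y a := by
      intro i
      obtain ⟨⟨a, s⟩, ha⟩ := (lamE hcard (hinj y hy) (hm hy) (psi_orth hU hψ h1 hy)).surjective (e' i)
      rw [lamE_apply] at ha
      have h2 := he' i
      rw [← ha, inner_add_right, psi_orth hU hψ h1 hy, inner_smul_right, real_inner_self_eq_norm_sq,
        h1 y hy] at h2
      have h3 : s = 0 := by linarith
      rw [h3, zero_smul, add_zero] at ha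
      exact ⟨a, ha.symm⟩
    choose e he using this
    exact ⟨e, funext he⟩
  constructor
  · constructor
    · intro hp e' he' ho φ hs ht hφ
      obtain ⟨e, rfl⟩ := hex e' he'
      rw [← hskf]
      exact hp e ((hort e).2 ho) φ hs ht hφ
    · intro hp e ho φ hs ht hφ
      rw [hskf]
      exact hp _ (fun i => psi_orth hU hψ h1 hy _) ((hort e).1 ho) φ hs ht hφ
  · constructor
    · intro hp e' he' ho φ hs ht
      obtain ⟨e, rfl⟩ := hex e' he'
      rw [← hskf]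
      exact hp e ((hort e).2 ho) φ hs ht
    · intro hp e ho φ hs ht
      rw [hskf]
      exact hp _ (fun i => psi_orth hU hψ h1 hy _) ((hort e).1 ho) φ hs ht

end Pool.Agent.RF.H5
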