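import Pool.Agent.Helper5_RF.Nat

/-!
# Module DIFFEO: pullback by a local diffeomorphism (MP_a23110_gt squad, helper5)
-/

noncomputable section

open scoped ContDiff Topology RealInnerProductSpace
set_option maxSynthPendingDepth 3
open Set

namespace Pool.Agent.RF.H5

open Pool.Agent.RF

variable {ι κ : Type} [Fintype ι] [DecidableEq ι] [Fintype κ] [DecidableEq κ]
  {H : E ι → Bil (E ι)} {ψ : E κ → E ι} {U : Set (E κ)} {U' : Set (E ι)}

theorem pullb_hasFDerivAt (hH : IsMetricOn H U') {y : E κ} (hψ : ContDiffAt ℝ ∞ ψ y)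
    (hy : ψ y ∈ U') (v w u : E κ) :
    HasFDerivAt (fun z => pullb H ψ z v w)
      (fderiv ℝ (fun z => pullb H ψ z v w) y) y ∧
    fderiv ℝ (fun z => pullb H ψ z v w) y u =
      fderiv ℝ H (ψ y) (fderiv ℝ ψ y u) (fderiv ℝ ψ y v) (fderiv ℝ ψ y w)
        + H (ψ y) (fderiv ℝ (fderiv ℝ ψ) y u v) (fderiv ℝ ψ y w)
        + H (ψ y) (fderiv ℝ ψ y v) (fderiv ℝ (fderiv ℝ ψ) y u w) := by
  have hHd : HasFDerivAt H (fderiv ℝ H (ψ y)) (ψ y) :=
    ((hH.smooth.contDiffAt (hH.isOpen.mem_nhds hy)).differentiableAt (by simp)).hasFDerivAt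
  have h1 : HasFDerivAt (fun z => H (ψ z)) ((fderiv ℝ H (ψ y)).comp (fderiv ℝ ψ y)) y :=
    hHd.comp y (hψ.differentiableAt (by simp)).hasFDerivAt
  have h2 : ∀ a, HasFDerivAt (fun z => fderiv ℝ ψ z a) ((fderiv ℝ (fderiv ℝ ψ) y).flip a) y := by
    intro a
    have h3 : HasFDerivAt (fderiv ℝ ψ) (fderiv ℝ (fderiv ℝ ψ) y) y :=
      ((fd_contDiffAt hψ).differentiableAt (by simp)).hasFDerivAt
    have h4 := h3.clm_apply (hasFDerivAt_const (𝕜 := ℝ) a y)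
    refine h4.congr_fderiv ?_
    ext u
    simp
  have h5 := (h1.clm_apply (h2 v)).clm_apply (h2 w)
  have h6 : (fun z => pullb H ψ z v w) = fun z => H (ψ z) (fderiv ℝ ψ z v) (fderiv ℝ ψ z w) := rfl
  rw [h6]
  refine ⟨h5.differentiableAt.hasFDerivAt, ?_⟩
  rw [h5.fderiv]
  simp
  ring

theorem pullb_contDiffOn (hH : IsMetricOn H U') (hU : IsOpen U) (hψ : ContDiffOn ℝ ∞ ψ U)
    (hm : MapsTo ψ U U') : ContDiffOn ℝ ∞ (pullb H ψ) U := by
  have h1 : ContDiffOn ℝ ∞ (fun z => H (ψ z)) U := hH.smooth.comp hψ hm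
  have h2 : ContDiffOn ℝ ∞ (fderiv ℝ ψ) U := hψ.fderiv_of_isOpen hU (by simp)
  -- `bilinearComp` as a smooth function
  have h3 : ∀ z, pullb H ψ z =
      ((ContinuousLinearMap.flip (((ContinuousLinearMap.flip ((H (ψ z)).comp (fderiv ℝ ψ z))).comp
        (fderiv ℝ ψ z)) ))) := by
    intro z
    ext v w
    rfl
  have h4 : pullb H ψ = fun z =>
      ((ContinuousLinearMap.flip (((ContinuousLinearMap.flip ((H (ψ z)).comp (fderiv ℝ ψ z))).comp
        (fderiv ℝ ψ z)) ))) := funext h3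
  rw [h4]
  have k1 : ContDiffOn ℝ ∞ (fun z => (H (ψ z)).comp (fderiv ℝ ψ z)) U := h1.clm_comp h2
  have k2 : ContDiffOn ℝ ∞ (fun z => ContinuousLinearMap.flip ((H (ψ z)).comp (fderiv ℝ ψ z))) U :=
    ((ContinuousLinearMap.flipₗᵢ ℝ (E κ) (E ι) ℝ).toContinuousLinearEquiv.contDiff).comp_contDiffOn k1
  have k3 := k2.clm_comp h2
  exact ((ContinuousLinearMap.flipₗᵢ ℝ (E κ) (E κ) ℝ).toContinuousLinearEquiv.contDiff).comp_contDiffOn k3

theorem pullb_isMetricOn (hH : IsMetricOn H U') (hU : IsOpen U) (hψ : ContDiffOn ℝ ∞ ψ U)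
    (hm : MapsTo ψ U U') (hinj : ∀ y ∈ U, Function.Injective (fderiv ℝ ψ y)) :
    IsMetricOn (pullb H ψ) U where
  isOpen := hU
  smooth := pullb_contDiffOn hH hU hψ hm
  symm := fun y hy v w => hH.symm _ (hm hy) _ _
  pos := fun y hy v hv => hH.pos _ (hm hy) _ (by
    intro h0
    exact hv (hinj y hy (h0.trans (map_zero _).symm)))

/-- Koszul formula of the pullback. -/
theorem pullb_kos (hH : IsMetricOn H U') (h : ChrStatement) (hU : IsOpen U)
    (hψ : ContDiffOn ℝ ∞ ψ U)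
    (hm : MapsTo ψ U U') (y : E κ) (hy : y ∈ U) (v w z : E κ) :
    (1/2 : ℝ) * (fderiv ℝ (pullb H ψ) y v w z + fderiv ℝ (pullb H ψ) y w v z
        - fderiv ℝ (pullb H ψ) y z v w) =
      H (ψ y) (fderiv ℝ (fderiv ℝ ψ) y v w + chris H (ψ y) (fderiv ℝ ψ y v) (fderiv ℝ ψ y w))
        (fderiv ℝ ψ y z) := by
  have hc : ContDiffAt ℝ ∞ ψ y := psi_contDiffAt hU hψ hy
  have hP : DifferentiableAt ℝ (pullb H ψ) y :=
    (((pullb_contDiffOn hH hU hψ hm)).contDiffAt (hU.mem_nhds hy)).differentiableAt (by simp)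
  have key : ∀ a b c, fderiv ℝ (pullb H ψ) y a b c =
      fderiv ℝ H (ψ y) (fderiv ℝ ψ y a) (fderiv ℝ ψ y b) (fderiv ℝ ψ y c)
        + H (ψ y) (fderiv ℝ (fderiv ℝ ψ) y a b) (fderiv ℝ ψ y c)
        + H (ψ y) (fderiv ℝ ψ y b) (fderiv ℝ (fderiv ℝ ψ) y a c) := by
    intro a b c
    rw [← (pullb_hasFDerivAt hH hc (hm hy) b c a).2]
    have h1 := (hP.hasFDerivAt.clm_apply (hasFDerivAt_const (𝕜 := ℝ) b y)).clm_apply
      (hasFDerivAt_const (𝕜 := ℝ) c y)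
    rw [h1.fderiv]
    simp
  rw [key, key, key]
  rw [fd2_symm hc z v, fd2_symm hc z w, fd2_symm hc w v]
  rw [(H (ψ y)).map_add]
  change _ = H (ψ y) (fderiv ℝ (fderiv ℝ ψ) y v w) (fderiv ℝ ψ y z) +
    H (ψ y) (chris H (ψ y) (fderiv ℝ ψ y v) (fderiv ℝ ψ y w)) (fderiv ℝ ψ y z)
  rw [chr_kos h hH (hm hy)]
  rw [hH.symm _ (hm hy) (fderiv ℝ ψ y w) (fderiv ℝ (fderiv ℝ ψ) y v z),
    hH.symm _ (hm hy) (fderiv ℝ ψ y v) (fderiv ℝ (fderiv ℝ ψ) y w z)]
  ring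

/-- **Module DIFFEO.** -/
theorem diffeo (h : ChrStatement) (hn : NatStatement) : DiffeoStatement := by
  intro ι κ _ _ _ _ H ψ U U' hH hU hψ hm hinv
  have hM : IsMetricOn (pullb H ψ) U := pullb_isMetricOn hH hU hψ hm (by
    intro y hy
    obtain ⟨e, he⟩ := hinv y hy
    rw [← he]
    exact e.injective)
  have hS : StarOn (pullb H ψ) H ψ U := by
    intro y hy v w
    have hc : ContDiffAt ℝ ∞ ψ y := psi_contDiffAt hU hψ hy
    obtain ⟨e, he⟩ := hinv y hy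
    have hX : chris (pullb H ψ) y v w = e.symm (fderiv ℝ (fderiv ℝ ψ) y v w
        + chris H (ψ y) (fderiv ℝ ψ y v) (fderiv ℝ ψ y w)) := by
      refine chr_unique h hM hy v w _ ?_
      intro z
      rw [pullb_kos hH h hU hψ hm y hy v w z, pullb_apply, ← he]
      simp
    rw [hX, fd2_eq hc]
    have h0 : ∀ a, fderiv ℝ ψ y a = e a := fun a => by rw [← he]; rfl
    rw [h0 (e.symm _), e.apply_symm_apply]
  refine ⟨hM, hS, ?_⟩
  intro y hy v w
  obtain ⟨e, he⟩ := hinv y hy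
  rw [ric_eq_trace h hM hy, ric_eq_trace h hH (hm hy)]
  have hconj : riemLin h hH (hm hy) (fderiv ℝ ψ y v) (fderiv ℝ ψ y w) =
      e.toLinearEquiv.conj (riemLin h hM hy v w) := by
    ext1 u
    rw [LinearEquiv.conj_apply_apply]
    have := hn ι κ (pullb H ψ) H ψ U U' hM hH hψ hm hS y hy (e.symm u) v w
    rw [riemLin_apply, riemLin_apply]
    have h0 : ∀ a, fderiv ℝ ψ y a = e a := fun a => by rw [← he]; rfl
    rw [h0, h0 (e.symm u), e.apply_symm_apply] at this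
    exact this.symm
  rw [hconj, LinearMap.trace_conj']

end Pool.Agent.RF.H5
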