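import Pool.Agent.Helper36_RF.GeoSt

/-!
# Common lemmas on Christoffel symbols (MP_a23110_gt squad, helper5)
-/

noncomputable section

open scoped ContDiff Topology RealInnerProductSpace
set_option maxSynthPendingDepth 3
open Set

namespace Pool.Agent.RF.H5

open Pool.Agent.RF

variable {ι κ : Type} [Fintype ι] [DecidableEq ι] [Fintype κ] [DecidableEq κ]

section chr
variable {G : E ι → Bil (E ι)} {U : Set (E ι)} {x : E ι}

theorem chr_inv (h : ChrStatement) (hG : IsMetricOn G U) (hx : x ∈ U) : (G x).IsInvertible :=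
  (h ι G U hG x hx).1

theorem chr_kos (h : ChrStatement) (hG : IsMetricOn G U) (hx : x ∈ U) (v w z : E ι) :
    G x (chris G x v w) z =
        (1/2 : ℝ) * (fderiv ℝ G x v w z + fderiv ℝ G x w v z - fderiv ℝ G x z v w) :=
  (h ι G U hG x hx).2.1 v w z

theorem chr_dsymm (h : ChrStatement) (hG : IsMetricOn G U) (hx : x ∈ U) (v w z : E ι) :
    fderiv ℝ G x z v w = fderiv ℝ G x z w v :=
  (h ι G U hG x hx).2.2.1 v w z

theorem chr_comm (h : ChrStatement) (hG : IsMetricOn G U) (hx : x ∈ U) (v w : E ι) :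
    chris G x v w = chris G x w v :=
  (h ι G U hG x hx).2.2.2.1 v w

theorem chr_add_left (h : ChrStatement) (hG : IsMetricOn G U) (hx : x ∈ U) (v v' w : E ι) :
    chris G x (v + v') w = chris G x v w + chris G x v' w :=
  (h ι G U hG x hx).2.2.2.2.1 v v' w

theorem chr_smul_left (h : ChrStatement) (hG : IsMetricOn G U) (hx : x ∈ U) (c : ℝ) (v w : E ι) :
    chris G x (c • v) w = c • chris G x v w :=
  (h ι G U hG x hx).2.2.2.2.2.1 c v w

theorem chr_smooth (h : ChrStatement) (hG : IsMetricOn G U) :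
    ContDiffOn ℝ ∞ (fun q : E ι × E ι × E ι => chris G q.1 q.2.1 q.2.2) (U ×ˢ univ) := by
  by_cases hU : U.Nonempty
  · obtain ⟨x, hx⟩ := hU
    exact (h ι G U hG x hx).2.2.2.2.2.2
  · rw [Set.not_nonempty_iff_eq_empty] at hU
    subst hU
    simp

theorem chr_add_right (h : ChrStatement) (hG : IsMetricOn G U) (hx : x ∈ U) (v w w' : E ι) :
    chris G x v (w + w') = chris G x v w + chris G x v w' := by
  rw [chr_comm h hG hx, chr_add_left h hG hx, chr_comm h hG hx w, chr_comm h hG hx w']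

theorem chr_smul_right (h : ChrStatement) (hG : IsMetricOn G U) (hx : x ∈ U) (c : ℝ) (v w : E ι) :
    chris G x v (c • w) = c • chris G x v w := by
  rw [chr_comm h hG hx, chr_smul_left h hG hx, chr_comm h hG hx w]

theorem chr_neg_left (h : ChrStatement) (hG : IsMetricOn G U) (hx : x ∈ U) (v w : E ι) :
    chris G x (-v) w = - chris G x v w := by
  have := chr_smul_left h hG hx (-1) v w
  simpa using this

theorem chr_neg_right (h : ChrStatement) (hG : IsMetricOn G U) (hx : x ∈ U) (v w : E ι) :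
    chris G x v (-w) = - chris G x v w := by
  have := chr_smul_right h hG hx (-1) v w
  simpa using this

theorem chr_sub_left (h : ChrStatement) (hG : IsMetricOn G U) (hx : x ∈ U) (v v' w : E ι) :
    chris G x (v - v') w = chris G x v w - chris G x v' w := by
  rw [sub_eq_add_neg, chr_add_left h hG hx, chr_neg_left h hG hx, sub_eq_add_neg]

theorem chr_sub_right (h : ChrStatement) (hG : IsMetricOn G U) (hx : x ∈ U) (v w w' : E ι) :
    chris G x v (w - w') = chris G x v w - chris G x v w' := by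
  rw [sub_eq_add_neg, chr_add_right h hG hx, chr_neg_right h hG hx, sub_eq_add_neg]

/-- the bundled Christoffel symbol -/
def chrL (h : ChrStatement) (hG : IsMetricOn G U) (hx : x ∈ U) : E ι →L[ℝ] E ι →L[ℝ] E ι :=
  LinearMap.toContinuousLinearMap
    (LinearMap.comp (LinearMap.toContinuousLinearMap : (E ι →ₗ[ℝ] E ι) ≃ₗ[ℝ] _).toLinearMap
    (LinearMap.mk₂ ℝ (chris G x) (chr_add_left h hG hx) (chr_smul_left h hG hx)
      (chr_add_right h hG hx) (fun c v w => chr_smul_right h hG hx c v w)))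

@[simp] theorem chrL_apply (h : ChrStatement) (hG : IsMetricOn G U) (hx : x ∈ U) (v w : E ι) :
    chrL h hG hx v w = chris G x v w := rfl

/-- uniqueness: `chris G x v w` is characterised by the Koszul formula. -/
theorem chr_unique (h : ChrStatement) (hG : IsMetricOn G U) (hx : x ∈ U) (v w X : E ι)
    (hX : ∀ z, G x X z =
        (1/2 : ℝ) * (fderiv ℝ G x v w z + fderiv ℝ G x w v z - fderiv ℝ G x z v w)) :
    chris G x v w = X := by
  by_contra hne
  have h1 : chris G x v w - X ≠ 0 := sub_ne_zero.2 hne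
  have h2 := hG.pos x hx _ h1
  have h3 : ∀ z, G x (chris G x v w - X) z = 0 := by
    intro z
    rw [(G x).map_sub]
    change G x (chris G x v w) z - G x X z = 0
    rw [chr_kos h hG hx, hX, sub_self]
  rw [h3] at h2
  exact lt_irrefl _ h2

theorem chr_diffAt (h : ChrStatement) (hG : IsMetricOn G U) (hx : x ∈ U) (v w : E ι) :
    DifferentiableAt ℝ (fun q : E ι × E ι × E ι => chris G q.1 q.2.1 q.2.2) (x, v, w) := by
  have hs := chr_smooth h hG
  have hop : IsOpen (U ×ˢ (univ : Set (E ι × E ι))) := hG.isOpen.prod isOpen_univ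
  exact (hs.contDiffAt (hop.mem_nhds ⟨hx, mem_univ _⟩)).differentiableAt (by simp)

theorem chr_contDiffOn (h : ChrStatement) (hG : IsMetricOn G U) (v w : E ι) :
    ContDiffOn ℝ ∞ (fun y => chris G y v w) U := by
  have hs := chr_smooth h hG
  have : (fun y => chris G y v w) =
      (fun q : E ι × E ι × E ι => chris G q.1 q.2.1 q.2.2) ∘ (fun y => (y, v, w)) := rfl
  rw [this]
  refine hs.comp ?_ ?_
  · fun_prop
  · intro y hy
    exact ⟨hy, mem_univ _⟩

theorem chr_diffAt' (h : ChrStatement) (hG : IsMetricOn G U) (hx : x ∈ U) (v w : E ι) :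
    DifferentiableAt ℝ (fun y => chris G y v w) x :=
  ((chr_contDiffOn h hG v w).contDiffAt (hG.isOpen.mem_nhds hx)).differentiableAt (by simp)

/-- the derivative of `chris` in its three slots -/
theorem chr_fderiv3 (h : ChrStatement) (hG : IsMetricOn G U) (hx : x ∈ U) (v w dx dv dw : E ι) :
    fderiv ℝ (fun q : E ι × E ι × E ι => chris G q.1 q.2.1 q.2.2) (x, v, w) (dx, dv, dw) =
      fderiv ℝ (fun y => chris G y v w) x dx + chris G x dv w + chris G x v dw := by
  have hd := (chr_diffAt h hG hx v w).hasFDerivAt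
  set D := fderiv ℝ (fun q : E ι × E ι × E ι => chris G q.1 q.2.1 q.2.2) (x, v, w)
  have e : ((dx, dv, dw) : E ι × E ι × E ι) = (dx, 0, 0) + (0, dv, 0) + (0, 0, dw) := by
    simp
  rw [e, map_add, map_add]
  congr 1
  · congr 1
    · have h1 : HasFDerivAt (fun y : E ι => ((y, v, w) : E ι × E ι × E ι))
          (ContinuousLinearMap.inl ℝ (E ι) (E ι × E ι)) x := by
        have := (hasFDerivAt_id (𝕜 := ℝ) x).prodMk (hasFDerivAt_const (𝕜 := ℝ) ((v, w) : E ι × E ι) x)
        simpa [ContinuousLinearMap.inl] using this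
      have h2 := hd.comp x h1
      have h3 : fderiv ℝ (fun y => chris G y v w) x = D.comp (ContinuousLinearMap.inl ℝ (E ι) (E ι × E ι)) :=
        h2.fderiv
      rw [h3]
      rfl
    · have h1 : HasFDerivAt (fun y : E ι => ((x, y, w) : E ι × E ι × E ι))
          ((ContinuousLinearMap.inr ℝ (E ι) (E ι × E ι)).comp (ContinuousLinearMap.inl ℝ (E ι) (E ι))) v := by
        have := (hasFDerivAt_const (𝕜 := ℝ) x v).prodMk ((hasFDerivAt_id (𝕜 := ℝ) v).prodMk (hasFDerivAt_const (𝕜 := ℝ) w v))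
        exact this
      have h2 := hd.comp v h1
      have h4 : HasFDerivAt (fun y => chris G x y w) ((chrL h hG hx).flip w) v :=
        ((chrL h hG hx).flip w).hasFDerivAt
      have h3 := h2.unique h4
      have h5 := congrArg (fun L => L dv) h3
      exact h5
  · have h1 : HasFDerivAt (fun y : E ι => ((x, v, y) : E ι × E ι × E ι))
          ((ContinuousLinearMap.inr ℝ (E ι) (E ι × E ι)).comp (ContinuousLinearMap.inr ℝ (E ι) (E ι))) w := by
        have := (hasFDerivAt_const (𝕜 := ℝ) x w).prodMk ((hasFDerivAt_const (𝕜 := ℝ) v w).prodMk (hasFDerivAt_id (𝕜 := ℝ) w))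
        exact this
    have h2 := hd.comp w h1
    have h4 : HasFDerivAt (fun y => chris G x v y) (chrL h hG hx v) w :=
      (chrL h hG hx v).hasFDerivAt
    have h3 := h2.unique h4
    exact congrArg (fun L => L dw) h3

theorem chr_hasFDerivAt_comp {W : Type*} [NormedAddCommGroup W] [NormedSpace ℝ W]
    (h : ChrStatement) (hG : IsMetricOn G U) {f a b : W → E ι} {f' a' b' : W →L[ℝ] E ι} {y : W}
    (hf : HasFDerivAt f f' y) (ha : HasFDerivAt a a' y) (hb : HasFDerivAt b b' y) (hy : f y ∈ U) :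
    HasFDerivAt (fun z => chris G (f z) (a z) (b z))
      ((fderiv ℝ (fun z => chris G z (a y) (b y)) (f y)).comp f' +
        ((chrL h hG hy).flip (b y)).comp a' + (chrL h hG hy (a y)).comp b') y := by
  have h1 := hf.prodMk (ha.prodMk hb)
  have h2 := ((chr_diffAt h hG hy (a y) (b y)).hasFDerivAt).comp y h1
  refine h2.congr_fderiv ?_
  ext u : 1
  have := chr_fderiv3 h hG hy (a y) (b y) (f' u) (a' u) (b' u)
  exact this

theorem chr_fderiv_comp {W : Type*} [NormedAddCommGroup W] [NormedSpace ℝ W]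
    (h : ChrStatement) (hG : IsMetricOn G U) {f a b : W → E ι} {y : W}
    (hf : DifferentiableAt ℝ f y) (ha : DifferentiableAt ℝ a y) (hb : DifferentiableAt ℝ b y)
    (hy : f y ∈ U) (u : W) :
    fderiv ℝ (fun z => chris G (f z) (a z) (b z)) y u =
      fderiv ℝ (fun z => chris G z (a y) (b y)) (f y) (fderiv ℝ f y u) +
        chris G (f y) (fderiv ℝ a y u) (b y) + chris G (f y) (a y) (fderiv ℝ b y u) := by
  rw [(chr_hasFDerivAt_comp h hG hf.hasFDerivAt ha.hasFDerivAt hb.hasFDerivAt hy).fderiv]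
  rfl

end chr

section riemlin
variable {G : E ι → Bil (E ι)} {U : Set (E ι)} {x : E ι}

theorem dchr_add (h : ChrStatement) (hG : IsMetricOn G U) (hx : x ∈ U) (u v v' w : E ι) :
    fderiv ℝ (fun y => chris G y (v + v') w) x u =
      fderiv ℝ (fun y => chris G y v w) x u + fderiv ℝ (fun y => chris G y v' w) x u := by
  have e : (fun y => chris G y (v + v') w) =ᶠ[𝓝 x] (fun y => chris G y v w + chris G y v' w) := by
    filter_upwards [hG.isOpen.mem_nhds hx] with y hy
    exact chr_add_left h hG hy v v' w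
  rw [e.fderiv_eq, fderiv_fun_add (chr_diffAt' h hG hx v w) (chr_diffAt' h hG hx v' w)]
  rfl

theorem dchr_smul (h : ChrStatement) (hG : IsMetricOn G U) (hx : x ∈ U) (c : ℝ) (u v w : E ι) :
    fderiv ℝ (fun y => chris G y (c • v) w) x u = c • fderiv ℝ (fun y => chris G y v w) x u := by
  have e : (fun y => chris G y (c • v) w) =ᶠ[𝓝 x] (fun y => c • chris G y v w) := by
    filter_upwards [hG.isOpen.mem_nhds hx] with y hy
    exact chr_smul_left h hG hy c v w
  rw [e.fderiv_eq, fderiv_fun_const_smul (chr_diffAt' h hG hx v w)]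
  rfl

theorem dchr_comm (h : ChrStatement) (hG : IsMetricOn G U) (hx : x ∈ U) (u v w : E ι) :
    fderiv ℝ (fun y => chris G y v w) x u = fderiv ℝ (fun y => chris G y w v) x u := by
  have e : (fun y => chris G y v w) =ᶠ[𝓝 x] (fun y => chris G y w v) := by
    filter_upwards [hG.isOpen.mem_nhds hx] with y hy
    exact chr_comm h hG hy v w
  rw [e.fderiv_eq]

theorem dchr_add_right (h : ChrStatement) (hG : IsMetricOn G U) (hx : x ∈ U) (u v w w' : E ι) :
    fderiv ℝ (fun y => chris G y v (w + w')) x u =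
      fderiv ℝ (fun y => chris G y v w) x u + fderiv ℝ (fun y => chris G y v w') x u := by
  rw [dchr_comm h hG hx, dchr_add h hG hx, dchr_comm h hG hx u w, dchr_comm h hG hx u w']

theorem dchr_smul_right (h : ChrStatement) (hG : IsMetricOn G U) (hx : x ∈ U) (c : ℝ) (u v w : E ι) :
    fderiv ℝ (fun y => chris G y v (c • w)) x u = c • fderiv ℝ (fun y => chris G y v w) x u := by
  rw [dchr_comm h hG hx, dchr_smul h hG hx, dchr_comm h hG hx u w]

theorem riem_antisymm (h : ChrStatement) (hG : IsMetricOn G U) (hx : x ∈ U) (u v w : E ι) :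
    riem G x u v w = - riem G x v u w := by
  unfold riem
  abel

theorem riem_add1 (h : ChrStatement) (hG : IsMetricOn G U) (hx : x ∈ U) (u u' v w : E ι) :
    riem G x (u + u') v w = riem G x u v w + riem G x u' v w := by
  unfold riem
  rw [map_add, dchr_add h hG hx, chr_add_left h hG hx, chr_add_left h hG hx,
    chr_add_right h hG hx]
  abel

theorem riem_smul1 (h : ChrStatement) (hG : IsMetricOn G U) (hx : x ∈ U) (c : ℝ) (u v w : E ι) :
    riem G x (c • u) v w = c • riem G x u v w := by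
  unfold riem
  rw [map_smul, dchr_smul h hG hx, chr_smul_left h hG hx, chr_smul_left h hG hx,
    chr_smul_right h hG hx]
  simp only [smul_sub, smul_add]

theorem riem_add2 (h : ChrStatement) (hG : IsMetricOn G U) (hx : x ∈ U) (u v v' w : E ι) :
    riem G x u (v + v') w = riem G x u v w + riem G x u v' w := by
  rw [riem_antisymm h hG hx, riem_add1 h hG hx, riem_antisymm h hG hx v, riem_antisymm h hG hx v']
  abel

theorem riem_smul2 (h : ChrStatement) (hG : IsMetricOn G U) (hx : x ∈ U) (c : ℝ) (u v w : E ι) :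
    riem G x u (c • v) w = c • riem G x u v w := by
  rw [riem_antisymm h hG hx, riem_smul1 h hG hx, riem_antisymm h hG hx v, smul_neg, neg_neg]

theorem riem_add3 (h : ChrStatement) (hG : IsMetricOn G U) (hx : x ∈ U) (u v w w' : E ι) :
    riem G x u v (w + w') = riem G x u v w + riem G x u v w' := by
  unfold riem
  rw [dchr_add_right h hG hx, dchr_add_right h hG hx, chr_add_right h hG hx,
    chr_add_right h hG hx, chr_add_right h hG hx, chr_add_right h hG hx]
  abel

theorem riem_smul3 (h : ChrStatement) (hG : IsMetricOn G U) (hx : x ∈ U) (c : ℝ) (u v w : E ι) :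
    riem G x u v (c • w) = c • riem G x u v w := by
  unfold riem
  rw [dchr_smul_right h hG hx, dchr_smul_right h hG hx, chr_smul_right h hG hx,
    chr_smul_right h hG hx, chr_smul_right h hG hx, chr_smul_right h hG hx]
  simp only [smul_sub, smul_add]

/-- `u ↦ R(u,v)w` as a linear map -/
def riemLin (h : ChrStatement) (hG : IsMetricOn G U) (hx : x ∈ U) (v w : E ι) : E ι →ₗ[ℝ] E ι where
  toFun u := riem G x u v w
  map_add' u u' := riem_add1 h hG hx u u' v w
  map_smul' c u := riem_smul1 h hG hx c u v w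

@[simp] theorem riemLin_apply (h : ChrStatement) (hG : IsMetricOn G U) (hx : x ∈ U) (u v w : E ι) :
    riemLin h hG hx v w u = riem G x u v w := rfl

theorem trace_eq (L : E ι →ₗ[ℝ] E ι) : LinearMap.trace ℝ (E ι) L = ∑ i, (L (eb i)) i := by
  rw [LinearMap.trace_eq_matrix_trace ℝ (EuclideanSpace.basisFun ι ℝ).toBasis L]
  rw [Matrix.trace]
  refine Finset.sum_congr rfl fun i _ => ?_
  rw [Matrix.diag_apply, LinearMap.toMatrix_apply]
  simp [eb]

theorem ric_eq_trace (h : ChrStatement) (hG : IsMetricOn G U) (hx : x ∈ U) (v w : E ι) :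
    ric G x v w = LinearMap.trace ℝ (E ι) (riemLin h hG hx v w) := by
  rw [trace_eq]
  rfl

end riemlin

section psi

variable {X Y : Type*} [NormedAddCommGroup X] [NormedSpace ℝ X] [NormedAddCommGroup Y] [NormedSpace ℝ Y]

theorem psi_contDiffAt {ψ : X → Y} {U : Set X} (hU : IsOpen U) (hψ : ContDiffOn ℝ ∞ ψ U) {y : X}
    (hy : y ∈ U) : ContDiffAt ℝ ∞ ψ y := hψ.contDiffAt (hU.mem_nhds hy)

theorem fd_contDiffAt {ψ : X → Y} {y : X} (hψ : ContDiffAt ℝ ∞ ψ y) :
    ContDiffAt ℝ ∞ (fderiv ℝ ψ) y :=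
  hψ.fderiv_right (m := ∞) (by simp)

theorem fd_apply_contDiffAt {ψ : X → Y} {y : X} (hψ : ContDiffAt ℝ ∞ ψ y) (w : X) :
    ContDiffAt ℝ ∞ (fun z => fderiv ℝ ψ z w) y :=
  (fd_contDiffAt hψ).clm_apply contDiffAt_const

theorem fd2_eq {ψ : X → Y} {y : X} (hψ : ContDiffAt ℝ ∞ ψ y) (v w : X) :
    fderiv ℝ (fun z => fderiv ℝ ψ z w) y v = fderiv ℝ (fderiv ℝ ψ) y v w := by
  have h1 : DifferentiableAt ℝ (fderiv ℝ ψ) y := (fd_contDiffAt hψ).differentiableAt (by simp)
  have h2 := h1.hasFDerivAt.clm_apply (hasFDerivAt_const (𝕜 := ℝ) w y)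
  rw [h2.fderiv]
  simp

theorem fd2_symm {ψ : X → Y} {y : X} (hψ : ContDiffAt ℝ ∞ ψ y) (v w : X) :
    fderiv ℝ (fderiv ℝ ψ) y v w = fderiv ℝ (fderiv ℝ ψ) y w v := by
  have := hψ.isSymmSndFDerivAt (by rw [minSmoothness_of_isRCLikeNormedField]; exact WithTop.coe_le_coe.2 le_top)
  exact this v w

theorem fd2_symm' {ψ : X → Y} {y : X} (hψ : ContDiffAt ℝ ∞ ψ y) (v w : X) :
    fderiv ℝ (fun z => fderiv ℝ ψ z w) y v = fderiv ℝ (fun z => fderiv ℝ ψ z v) y w := by
  rw [fd2_eq hψ, fd2_eq hψ, fd2_symm hψ]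

end psi

end Pool.Agent.RF.H5
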